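import Pool.Agent.H35.FQ.QSM

set_option autoImplicit false

namespace Pool.Agent.H35.FQ

open SC Pool.Agent.H27.LV Pool.Agent.H30.FQ

section

variable {k K : Type} [Field k] [Field K] [Algebra k K]

theorem ord_const_mul (v : DV k K) (b : k) (hb : b ≠ 0) (x : K) :
    v.ord (algebraMap k K b * x) = v.ord x := by
  by_cases hx : x = 0
  · rw [hx, mul_zero]
  · rw [v.ord_mul' ((map_ne_zero _).mpr hb) hx, v.ord_base, zero_add]

theorem max_le_of_lin (v : DV k K) (a b : k) (u X : K)
    (h : X = algebraMap k K a + algebraMap k K b * u) : max 0 (-(v.ord X)) ≤ max 0 (-(v.ord u)) := by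
  by_cases hX : X = 0
  · rw [hX, v.ord_zero]
    simp
  have h1 : ge v (min 0 (v.ord u)) X := by
    rw [h]
    refine ((ge_const v a).mono (by omega)).add ?_
    have := (ge_const v b).mul (ge_of_ord v (x := u))
    exact this.mono (by omega)
  have := le_of_ge hX h1
  omega

theorem deg_cast {ι : Type} [Fintype ι] (z : ι → K)
    (h : {v : DV k K | poleOrder v z ≠ 0}.Finite) :
    ((deg k z : ℕ) : ℤ) = ∑ᶠ v : DV k K, (poleOrder v z : ℤ) := by
  unfold deg
  exact (Nat.castAddMonoidHom ℤ).map_finsum h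

theorem poleOrder_pair (v : DV k K) (X Y : K) :
    (poleOrder v ![X, Y] : ℤ) = max (max 0 (-(v.ord X))) (max 0 (-(v.ord Y))) := by
  unfold poleOrder
  have : (Finset.univ : Finset (Fin 2)).sup (fun i => (-(v.ord (![X, Y] i))).toNat) =
      max (-(v.ord X)).toNat (-(v.ord Y)).toNat := by
    rw [Fin.univ_succ]
    simp
  rw [this]
  push_cast
  rw [Int.toNat_eq_max, Int.toNat_eq_max, max_comm (-(v.ord X)) 0, max_comm (-(v.ord Y)) 0]

end

/-- the zeros of `u - γ` -/
theorem claim (h : T_HHI) {k K : Type} [Field k] [IsAlgClosed k] [CharZero k] [Field K]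
    [Algebra k K] [Algebra.EssFiniteType k K] (htr : Algebra.trdeg k K = 1)
    (S : Finset (DV k K)) (D : Derivation k K K) (u : K) (hD : D ≠ 0) (hc : ∀ v, 0 ≤ cc S D v)
    (hfin : {v : DV k K | cc S D v ≠ 0}.Finite) (hDu : D u = u) (γ : k) (hγ : γ ≠ 0)
    (h4 : ∀ v, v ∉ S → v.ord (u - algebraMap k K γ) = 0 ∨ 4 ≤ v.ord (u - algebraMap k K γ)) :
    3 * hh k u ≤ 4 * ∑ᶠ v, cc S D v := by
  classical
  obtain ⟨h1, h2, _⟩ := h k K htr
  have h3 : hh k (u - algebraMap k K γ) = hh k u := by
    have := h2 u (-γ)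
    rw [map_neg, ← sub_eq_add_neg] at this
    exact this
  have hpt : ∀ v : DV k K, 3 * max 0 (v.ord (u - algebraMap k K γ)) ≤ 4 * cc S D v := by
    intro v
    by_cases hm : v.ord (u - algebraMap k K γ) ≤ 0
    · rw [max_eq_left hm]
      have := hc v
      omega
    · push Not at hm
      rw [max_eq_right hm.le]
      obtain ⟨_, _, h6⟩ := dor k K htr D hD v
      have h7 := (h6 _ hm.ne').2
      rw [map_sub, D.map_algebraMap, sub_zero, hDu] at h7
      have hu : v.ord u = 0 := by
        have e : u = algebraMap k K γ + (u - algebraMap k K γ) := by ring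
        rw [e, (v.ord_add_eq_left (y := u - algebraMap k K γ) ((map_ne_zero _).mpr hγ)
          (fun _ => by rw [v.ord_base]; exact hm)).2, v.ord_base]
      rw [hu] at h7
      unfold cc
      by_cases hv : v ∈ S
      · rw [if_pos hv]; omega
      · rw [if_neg hv]
        have := h4 v hv
        omega
  have hposfin : (Function.support fun v : DV k K => 3 * max 0 (v.ord (u - algebraMap k K γ))).Finite := by
    refine (pfm k K htr (u - algebraMap k K γ)).1.subset ?_
    intro v hv h0
    apply hv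
    simp only
    rw [h0]
    rfl
  have h4fin : (Function.support fun v : DV k K => 4 * cc S D v).Finite := by
    refine hfin.subset ?_
    intro v hv h0
    apply hv
    simp only
    rw [h0]
    rfl
  calc 3 * hh k u = 3 * ∑ᶠ v : DV k K, max 0 (v.ord (u - algebraMap k K γ)) := by
        rw [(h1 _).2.2, h3]
    _ = ∑ᶠ v : DV k K, 3 * max 0 (v.ord (u - algebraMap k K γ)) := mul_finsum _ _
    _ ≤ ∑ᶠ v : DV k K, 4 * cc S D v := fs_le hposfin h4fin hpt
    _ = _ := (mul_finsum _ _).symm

theorem gzr (h : T_HHI) : T_GZR := by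
  classical
  intro k K _ _ _ _ _ _ htr S D X Y hD hc hfin hDu hu hg hOrb hX1 hY1
  have hOu0 := hOrb.u0
  obtain ⟨u, hudef⟩ : ∃ u, u = X + Y - 1 := ⟨_, rfl⟩
  rw [← hudef] at hDu hu hOu0
  have hDuu : D u = u := by
    rw [hudef, map_sub, map_add, D.map_one_eq_zero, sub_zero, hDu, hudef]
  have hu0 : u ≠ 0 := hOu0
  have hDD : D (D X) = D X := by
    unfold gg at hg
    exact sub_eq_zero.mp hg
  have h1 : D (D X / u) = 0 := by
    rw [Derivation.leibniz_div, hDD, hDuu]
    simp [mul_comm]
  obtain ⟨β, hβ⟩ := ker k K htr D hD _ h1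
  have hDX : D X = algebraMap k K β * u := by
    rw [hβ, div_mul_cancel₀ _ hu0]
  have h2 : D (X - algebraMap k K β * u) = 0 := by
    rw [map_sub, D.leibniz, D.map_algebraMap, hDuu, hDX]
    simp
  obtain ⟨α, hα⟩ := ker k K htr D hD _ h2
  have hX : X = algebraMap k K α + algebraMap k K β * u := by
    rw [hα]; ring
  have hY : Y = algebraMap k K (1 - α) + algebraMap k K (1 - β) * u := by
    rw [map_sub, map_sub, map_one]
    have : Y = u + 1 - X := by rw [hudef]; ring
    rw [this, hX]
    ring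
  -- the degree
  have hpfi := pfi k K htr (Fin 2) ![X, Y]
  have hdeg : (deg k ![X, Y] : ℤ) ≤ hh k u := by
    rw [deg_cast _ hpfi]
    unfold hh
    refine fs_le ?_ ((h k K htr).1 u).2.1 ?_
    · refine hpfi.subset ?_
      intro v hv h0
      apply hv
      simp only
      rw [h0]
      rfl
    · intro v
      rw [poleOrder_pair]
      exact max_le (max_le_of_lin v α β u X hX) (max_le_of_lin v _ _ u Y hY)
  have hcl : ∀ γ : k, γ ≠ 0 →
      (∀ v, v ∉ S → v.ord (u - algebraMap k K γ) = 0 ∨ 4 ≤ v.ord (u - algebraMap k K γ)) →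
      3 * (deg k ![X, Y] : ℤ) ≤ 4 * ∑ᶠ v, cc S D v := fun γ hγ h4 => by
    have := claim h htr S D u hD hc hfin hDuu γ hγ h4
    linarith
  by_cases hβ0 : β = 0
  · rw [hβ0, map_zero, zero_mul, add_zero] at hX
    have hα1 : α ≠ 1 := by
      rintro rfl
      exact hX1 (by rw [hX, map_one])
    refine hcl (α - 1) (sub_ne_zero.mpr hα1) fun v hv => ?_
    have e : Y = u - algebraMap k K (α - 1) := by
      rw [hY, hβ0, sub_zero, map_one, one_mul, map_sub, map_sub]
      ring
    rw [← e]
    exact hOrb.oy v hv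
  · by_cases hα0 : α = 0
    · rw [hα0, map_zero, zero_add] at hX
      have hβ1 : 1 - β ≠ 0 := by
        intro h0
        apply hY1
        rw [hY, h0, hα0]
        simp
      refine hcl (-(1 - β)⁻¹) (neg_ne_zero.mpr (inv_ne_zero hβ1)) fun v hv => ?_
      have e : Y = algebraMap k K (1 - β) * (u - algebraMap k K (-(1 - β)⁻¹)) := by
        rw [hY, hα0, mul_sub, ← map_mul, mul_neg, mul_inv_cancel₀ hβ1]
        simp
        ring
      have h5 := hOrb.oy v hv
      rw [e, ord_const_mul v _ hβ1] at h5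
      exact h5
    · refine hcl (-(α / β)) (neg_ne_zero.mpr (div_ne_zero hα0 hβ0)) fun v hv => ?_
      have e : X = algebraMap k K β * (u - algebraMap k K (-(α / β))) := by
        rw [hX, mul_sub, ← map_mul, mul_neg, mul_div_cancel₀ _ hβ0]
        simp
        ring
      have h5 := hOrb.ox v hv
      rw [e, ord_const_mul v _ hβ0] at h5
      exact h5

end Pool.Agent.H35.FQ
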