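import Pool.Agent.H30.FQ.Targets

set_option autoImplicit false

namespace Pool.Agent.H35.FQ

open SC Pool.Agent.H27.LV Pool.Agent.H30.FQ

theorem fs_le {α : Type} {f g : α → ℤ} (hf : (Function.support f).Finite)
    (hg : (Function.support g).Finite) (h : ∀ v, f v ≤ g v) : ∑ᶠ v, f v ≤ ∑ᶠ v, g v := by
  classical
  rw [finsum_eq_sum_of_support_subset (s := hf.toFinset ∪ hg.toFinset) f,
    finsum_eq_sum_of_support_subset (s := hf.toFinset ∪ hg.toFinset) g]
  · exact Finset.sum_le_sum fun v _ => h v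
  · intro v hv
    simp [Function.mem_support.mp hv]
  · intro v hv
    simp [Function.mem_support.mp hv]

section

variable {k K : Type} [Field k] [CharZero k] [Field K] [Algebra k K] {v : DV k K}
  {D : Derivation k K K} {s c : ℤ} {X Y : K}

omit [CharZero k] in
theorem le_of_ge {t : ℤ} {x : K} (hx : x ≠ 0) (h : ge v t x) : t ≤ v.ord x := h.resolve_left hx

omit [CharZero k] in
theorem gg_swap (h : Loc v D s c X Y) : gg D X = -(gg D Y) := by
  have h1 : D (D X) + D (D Y) = D X + D Y := by
    rw [← map_add, h.du, map_sub, map_add, D.map_one_eq_zero, sub_zero, h.du]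
  unfold gg
  linear_combination h1

omit [CharZero k] in
/-- the bound for `G` when `s = 1` -/
theorem g1 (h1 : DOrd v D (1 - c)) (hc : 0 ≤ c) (X : K) (hX : X ≠ 0) :
    ge v (v.ord X - 2 * c) (gg D X) := by
  have h2 := h1.2 X hX
  refine ge.sub ?_ (h2.mono (by omega))
  by_cases h0 : D X = 0
  · rw [h0, map_zero]; exact ge_zero v _
  · have h3 := le_of_ge h0 h2
    exact (h1.2 (D X) h0).mono (by omega)

omit [CharZero k] in
/-- the bound for `G` when `s = 0`, first case -/
theorem g0a (h1 : DOrd v D (0 - c)) (hc : 0 ≤ c) (X : K) (hX : X ≠ 0) :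
    ge v (v.ord X - 2 - 2 * c) (gg D X) := by
  have h2 := h1.2 X hX
  refine ge.sub ?_ (h2.mono (by omega))
  by_cases h0 : D X = 0
  · rw [h0, map_zero]; exact ge_zero v _
  · have h3 := le_of_ge h0 h2
    exact (h1.2 (D X) h0).mono (by omega)

omit [CharZero k] in
/-- the bound for `G` when `s = 0`, second case -/
theorem g0b (h1 : DOrd v D (0 - c)) (hc : 0 ≤ c) (X : K) (hX : 0 ≤ v.ord X) :
    ge v (-(3 * c)) (gg D X) := by
  have h2 := h1.1 X hX
  refine ge.sub ?_ (h2.mono (by omega))
  by_cases h0 : D X = 0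
  · rw [h0, map_zero]; exact ge_zero v _
  · have h3 := le_of_ge h0 h2
    by_cases h4 : 0 ≤ v.ord (D X)
    · exact (h1.1 (D X) h4).mono (by omega)
    · exact (h1.2 (D X) h0).mono (by omega)

theorem ord_QQ (h : Loc v D s c X Y) : v.ord (QQ D X Y) = 2 * v.ord (gg D X) - v.ord X - v.ord Y := by
  have h16 : (16 : K) = algebraMap k K 16 := (map_ofNat (algebraMap k K) 16).symm
  have h16' : (16 : K) ≠ 0 := by
    rw [h16]
    exact (map_ne_zero _).mpr (by norm_num)
  have h1 : (16 * X) ≠ 0 := mul_ne_zero h16' h.x0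
  rw [QQ, v.ord_div (pow_ne_zero _ h.g0) (mul_ne_zero h1 h.y0), v.ord_mul' h1 h.y0,
    v.ord_mul' h16' h.x0, v.ord_pow, h16, v.ord_base]
  push_cast
  ring

end

theorem qsm : T_QSM := by
  intro k K _ _ _ _ v D s c X Y h
  rw [ord_QQ h]
  have hc := h.c0
  have hgY : gg D Y ≠ 0 := by
    intro h0
    apply h.g0
    rw [gg_swap h, h0, neg_zero]
  have hordg : v.ord (gg D X) = v.ord (gg D Y) := by rw [gg_swap h, v.ord_neg]
  rcases h.alt with hs | ⟨hs, hu, hx, hy⟩
  · subst hs
    have h1 := le_of_ge h.g0 (g1 h.dord hc X h.x0)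
    have h2 := le_of_ge hgY (g1 h.dord hc Y h.y0)
    omega
  · subst hs
    have hxa := le_of_ge h.g0 (g0a h.dord hc X h.x0)
    have hya := le_of_ge hgY (g0a h.dord hc Y h.y0)
    rcases hx with hx | hx
    · have hxb := le_of_ge h.g0 (g0b h.dord hc X hx.ge)
      rcases hy with hy | hy
      · have hyb := le_of_ge hgY (g0b h.dord hc Y hy.ge)
        omega
      · omega
    · rcases hy with hy | hy
      · omega
      · have h3 : ge v (min (v.ord X) (v.ord Y) - 1 + (0 - c)) (X + Y - 1) := by
          rw [← h.du]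
          exact ((h.dord.2 X h.x0).mono (by omega)).add ((h.dord.2 Y h.y0).mono (by omega))
        have h4 := le_of_ge h.u0 h3
        rw [hu] at h4
        omega

theorem wsm : T_WSM := by
  intro k K _ _ _ _ _ _ htr c Q hfin hc hQ
  obtain ⟨hf1, hf2⟩ := pfm k K htr Q
  have hfin2 : {v : DV k K | c v + |v.ord Q| ≠ 0}.Finite := by
    refine (hfin.union hf1).subset ?_
    intro v hv
    by_contra hcon
    simp only [Set.mem_union, Set.mem_ofPred_eq, not_or, not_not] at hcon
    apply hv
    rw [hcon.1, hcon.2]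
    rfl
  refine ⟨hfin2, ?_⟩
  have h13 : (Function.support fun v : DV k K => 13 * c v).Finite := by
    refine hfin.subset ?_
    intro v hv
    rw [Function.mem_support] at hv
    intro h0
    apply hv
    rw [h0, mul_zero]
  have hs : (Function.support fun v : DV k K => 13 * c v + v.ord Q).Finite :=
    (h13.union hf1).subset (Function.support_add _ _)
  calc ∑ᶠ v, (c v + |v.ord Q|) ≤ ∑ᶠ v, (13 * c v + v.ord Q) := by
        refine fs_le hfin2 hs fun v => ?_
        have h1 := hc v
        have h2 := hQ v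
        rcases abs_cases (v.ord Q) with ⟨h3, h4⟩ | ⟨h3, h4⟩ <;> rw [h3] <;> omega
    _ = ∑ᶠ v, 13 * c v + ∑ᶠ v : DV k K, v.ord Q := finsum_add_distrib h13 hf1
    _ = 13 * ∑ᶠ v, c v := by
        rw [hf2, add_zero]
        exact (mul_finsum c 13).symm

theorem cvp : T_CVP := by
  classical
  intro k K _ _ _ _ _ _ htr S D0 u hD0 hu hS
  have hDu : D0 u ≠ 0 := fun h => hu (ker k K htr D0 hD0 u h)
  have hu0 : u ≠ 0 := by
    rintro rfl
    exact hu ⟨0, map_zero _⟩
  have hq : u / D0 u ≠ 0 := div_ne_zero hu0 hDu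
  let D : Derivation k K K := (u / D0 u) • D0
  have hDz : ∀ z, D z = u / D0 u * D0 z := fun z => rfl
  have hDuu : D u = u := by rw [hDz, div_mul_cancel₀ _ hDu]
  have hD : D ≠ 0 := by
    intro h
    apply hu0
    rw [← hDuu, h]
    rfl
  have hord : ∀ v : DV k K, ordD v D = v.ord (u / D0 u) + ordD v D0 := by
    intro v
    unfold ordD
    rw [hDz, v.ord_mul' hq (dor k K htr D0 hD0 v).1]
  have hDfin := Pool.Agent.H58.LV.dfi dor pfm rat k K htr D hD
  have hD0fin := Pool.Agent.H58.LV.dfi dor pfm rat k K htr D0 hD0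
  obtain ⟨hq1, hq2⟩ := pfm k K htr (u / D0 u)
  have hSfin : (Function.support fun v : DV k K => if v ∈ S then (1 : ℤ) else 0).Finite := by
    refine S.finite_toSet.subset ?_
    intro v hv
    by_contra hcon
    apply hv
    exact if_neg hcon
  refine ⟨D, hD, hDuu, ?_, ?_, ?_⟩
  · intro v
    obtain ⟨h1, h2, h3⟩ := dor k K htr D hD v
    unfold cc
    by_cases hv : v.ord u = 0
    · have h4 := le_of_ge hu0 (by
        have := h2.1 u hv.ge
        rwa [hDuu] at this)
      split_ifs <;> omega
    · have hvS : v ∈ S := by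
        by_contra hcon
        exact hv (hS v hcon)
      have h4 := (h3 u hv).2
      rw [hDuu] at h4
      rw [if_pos hvS]
      omega
  · refine (hSfin.union hDfin).subset ?_
    intro v hv
    by_contra hcon
    rw [Set.mem_union, not_or] at hcon
    apply hv
    unfold cc
    have h1 : (if v ∈ S then (1 : ℤ) else 0) = 0 := by
      by_contra h; exact hcon.1 h
    have h2 : ordD v D = 0 := by
      by_contra h; exact hcon.2 h
    rw [h1, h2, sub_zero]
  · unfold cc
    rw [finsum_sub_distrib hSfin hDfin]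
    have h1 : ∑ᶠ v : DV k K, (if v ∈ S then (1 : ℤ) else 0) = S.card := by
      rw [finsum_eq_sum_of_support_subset (s := S)]
      · simp
      · intro v hv
        by_contra hcon
        apply hv
        exact if_neg hcon
    have h2 : ∑ᶠ v : DV k K, ordD v D = ∑ᶠ v : DV k K, ordD v D0 := by
      rw [finsum_congr hord, finsum_add_distrib hq1 hD0fin, hq2, zero_add]
    rw [h1, h2]
    unfold canDeg
    ring

end Pool.Agent.H35.FQ
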